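import Pool.Agent.Helper84_SA.Ew

/-! C27: the lower bound for the amplitude. -/

namespace SA.H84

open SA

theorem pre_of {T x0 z : ℝ} {th : ℂ} {k : ℕ} (h : PP T x0 z th k) : Pre T x0 z th k :=
  ⟨h.Cpos, h.Alo, h.Ahi, h.zlo, h.zhi⟩

theorem valid_of {T x0 z : ℝ} {th : ℂ} (hc : Ctx T x0 z th) {k : ℕ} (hH : HH T x0 z th k) :
    ∀ m, m < 1525 + k → Valid T m := by
  intro m hm
  by_cases h : m < 1525
  · exact hc.sim.valid m h
  · obtain ⟨i, rfl⟩ : ∃ i, m = 1525 + i := ⟨m - 1525, by omega⟩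
    exact (hH i (by omega)).val

/-- W is positive where the amplitude is at most 0.956 -/
theorem wpos_small (hE : EOneStmt) (hCycb : CycbStmt) (b : NumA) {T x0 z : ℝ} {th : ℂ}
    (hc : Ctx T x0 z th) {i : ℕ} (hH : HH T x0 z th i) (hP : Pre T x0 z th i)
    (hA : Am T x0 th i ≤ 0.956) : 0 < Wn T (1525 + i) := by
  obtain ⟨hc1, _, hc3, hc4, hc5, hc6, _⟩ := hCycb T x0 z th hc i
  have h1 := hE T x0 z th hc i hH hP 0 (Nat.zero_le _) (by
    rw [Nat.cast_zero, mul_zero, add_zero]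
    exact hc6)
  rw [Nat.sub_zero, Nat.cast_zero, mul_zero, add_zero] at h1
  refine lt_of_lt_of_le ?_ h1
  apply mul_pos hP.Cpos
  have hA0 : 0 ≤ Am T x0 th i := norm_nonneg _
  set c := cell T x0 th i with hcdef
  by_cases hcase : c < -64
  · have hper := abs_le.mp hc.nr.per_enc
    have h3 : (c : ℝ) ≤ -65 := by
      have : c ≤ -65 := by omega
      exact_mod_cast this
    have h4 := hc.nc.far (pp T x0 th i) (by
      have : (1 : ℝ) / 10 ^ 9 ≤ 0.001 := by norm_num
      linarith [hper.2]) (by linarith)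
    have h5 : Am T x0 th i * Real.cos (omg th * pp T x0 th i) ≤ 0.956 * 0.5197 :=
      le_trans (mul_le_mul_of_nonneg_left h4 hA0)
        (mul_le_mul_of_nonneg_right hA (by norm_num))
    have h6 := b.w.wpos c hc5 hc6 (Or.inl (by omega))
    unfold Wt at h6
    rw [if_pos hcase] at h6
    have h7 : ((0 : ℤ) : ℝ) < ((45 * 10 ^ 8 - (Yt c : ℤ) - 5 * 10 ^ 6 : ℤ) : ℝ) :=
      Int.cast_lt.mpr h6
    push_cast at h7
    have h8 : (Yt c : ℝ) / 10 ^ 10 ≤ 0.45 := by
      rw [div_le_iff₀ (by norm_num)]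
      linarith
    norm_num at h5
    linarith
  · have h4 := hc.nc.up c (by omega) hc6 (pp T x0 th i) (by linarith) (by linarith)
    have h6 := b.w.w956 c (by omega) hc6
    have h8 : cosmaxN c ≤ max 0 (cosmaxN c) := le_max_right _ _
    have h9 : 0 ≤ max 0 (cosmaxN c) := le_max_left _ _
    generalize max 0 (cosmaxN c) = M at h6 h8 h9
    have h10 : 9560 * M < (9560 * M / 10 ^ 4 + 1) * 10 ^ 4 := by
      have := Int.lt_ediv_add_one_mul_self (9560 * M) (show (0 : ℤ) < 10 ^ 4 by norm_num)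
      exact this
    generalize 9560 * M / 10 ^ 4 = N at h6 h10
    have h8' : (cosmaxN c : ℝ) ≤ M := by exact_mod_cast h8
    have h9' : (0 : ℝ) ≤ M := by exact_mod_cast h9
    have h6' : (N : ℝ) + (Yt c : ℝ) + 5 * 10 ^ 6 + 10 ^ 8 < 10 ^ 10 := by exact_mod_cast h6
    have h10' : 9560 * (M : ℝ) < ((N : ℝ) + 1) * 10 ^ 4 := by exact_mod_cast h10
    have h5 : Am T x0 th i * Real.cos (omg th * pp T x0 th i) ≤ 0.956 * ((M : ℝ) / 10 ^ 10) := by
      have h6 : Real.cos (omg th * pp T x0 th i) ≤ (M : ℝ) / 10 ^ 10 :=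
        le_trans h4 (div_le_div_of_nonneg_right h8' (by norm_num))
      calc Am T x0 th i * Real.cos (omg th * pp T x0 th i)
          ≤ Am T x0 th i * ((M : ℝ) / 10 ^ 10) := mul_le_mul_of_nonneg_left h6 hA0
        _ ≤ 0.956 * ((M : ℝ) / 10 ^ 10) := mul_le_mul_of_nonneg_right hA (by positivity)
    have h11 : 0.956 * ((M : ℝ) / 10 ^ 10) + (Yt c : ℝ) / 10 ^ 10 < 1 - 5 / 10 ^ 4 - 5 / 10 ^ 4 := by
      rw [← mul_div_assoc, ← add_div, div_lt_iff₀ (by norm_num)]
      linarith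
    linarith

/-- no pause at the last index before a cycle starts -/
theorem kap_before (hCycb : CycbStmt) (hDrift : DriftStmt) (hRef : RefStmt) {T x0 z : ℝ} {th : ℂ}
    (hc : Ctx T x0 z th) {k : ℕ} (hH : HH T x0 z th k) (j : ℕ) (hj : (j : ℤ) ≤ cyc T x0 th k) :
    kap T (1525 + ref T x0 th j - 1) = 0 := by
  obtain ⟨hr0, hr1, hr2⟩ := hRef T x0 z th hc k hH
  obtain ⟨h1, h2, h3, h4, h5, _⟩ := hr2 j hj
  by_cases h0 : ref T x0 th j = 0
  · rw [h0]
    exact hc.sim.kap_quiet _ (by omega) (by omega)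
  · obtain ⟨r, hr⟩ : ∃ r, ref T x0 th j = r + 1 := ⟨ref T x0 th j - 1, by omega⟩
    rw [hr]
    have h6 := h5 r (by omega)
    obtain ⟨_, h7, _⟩ := hDrift T x0 z th hc k hH r (r + 1) (by omega) (by omega)
    rw [hr] at h2
    have hPr := hH r (by omega)
    have h8 := hPr.kle
    obtain ⟨hc1, _, hc3, _⟩ := hCycb T x0 z th hc r
    obtain ⟨_, hd2, _⟩ := hCycb T x0 z th hc (r + 1)
    have hper := abs_le.mp hc.nr.per_enc
    have h9 : (1 : ℝ) / 10 ^ 9 ≤ 0.001 := by norm_num
    have h10 : (cell T x0 th r : ℝ) < -47 := by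
      have e1 : pp T x0 th r = ph T x0 th r + cyc T x0 th r * per th := rfl
      have e2 : pp T x0 th (r + 1) = ph T x0 th (r + 1) + cyc T x0 th (r + 1) * per th := rfl
      have h11 := (abs_le.mp h7).2
      push_cast at h11
      have h12 : (cyc T x0 th r : ℝ) + 1 ≤ cyc T x0 th (r + 1) := by
        rw [h2]
        exact_mod_cast h6
      have h13 : ph T x0 th r ≤ ph T x0 th (r + 1) + 1 +
          0.027 * ((cyc T x0 th (r + 1) : ℝ) - cyc T x0 th r + 1) := by linarith
      have h14 : ((cyc T x0 th (r + 1) : ℝ) - cyc T x0 th r) * 48 ≤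
          ((cyc T x0 th (r + 1) : ℝ) - cyc T x0 th r) * per th :=
        mul_le_mul_of_nonneg_left (by linarith [hper.1]) (by linarith)
      have h15 : pp T x0 th r ≤ pp T x0 th (r + 1) + 1.027 -
          ((cyc T x0 th (r + 1) : ℝ) - cyc T x0 th r) * 47.9 := by
        rw [e1, e2]
        linarith
      linarith
    have h11 : dmt (cell T x0 th r) = 0 := by
      unfold dmt
      rw [if_neg]
      intro h12
      have h13 : (-47 : ℝ) ≤ (cell T x0 th r : ℝ) := by exact_mod_cast h12.1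
      linarith
    rw [h11] at h8
    have h12 : 1525 + (r + 1) - 1 = 1525 + r := by omega
    rw [h12]
    omega

theorem pih_nonneg (a : AlgA) {T x0 z : ℝ} {th : ℂ} (hc : Ctx T x0 z th) {k i : ℕ}
    (hH : HH T x0 z th k) (hi : i < k) (d : ℕ) (h1 : 1 ≤ d) (h2 : d ≤ 55) :
    0 ≤ pih T x0 i d := by
  unfold pih
  apply div_nonneg _ (hH i hi).Cpos.le
  exact ((a.pds T (1525 + i) (fun m hm => valid_of hc hH m (by omega))).1 d h1 h2).1

theorem kk_nonneg (a : AlgA) {T x0 z : ℝ} {th : ℂ} (hc : Ctx T x0 z th) {k i : ℕ}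
    (hH : HH T x0 z th k) (hi : i < k) : 0 ≤ kk T x0 th i := by
  unfold kk
  refine Finset.sum_nonneg fun d hd => ?_
  rw [Finset.mem_Icc] at hd
  exact mul_nonneg (by positivity) (pih_nonneg a hc hH hi d hd.1 hd.2)

theorem zz_zero (a : AlgA) {T x0 z : ℝ} {th : ℂ} (hc : Ctx T x0 z th) {k i : ℕ}
    (hH : HH T x0 z th k) (hi : i < k) (hk : kap T (1525 + i) = 0) : zz T x0 i = 0 := by
  unfold zz
  refine Finset.sum_eq_zero fun d hd => ?_
  rw [Finset.mem_Icc] at hd
  have h := (a.pds T (1525 + i) (fun m hm => valid_of hc hH m (by omega))).2.1 d (by omega) hd.2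
  unfold pih
  rw [h, zero_div, mul_zero]

/-- no pauses in a cycle that starts with a small amplitude -/
theorem quiet_cycle (hE : EOneStmt) (hCycb : CycbStmt) (hDrift : DriftStmt) (hRef : RefStmt)
    (hAm : AmStmt) (hNop : NopStmt) (a : AlgA) (b : NumA) {T x0 z : ℝ} {th : ℂ}
    (hc : Ctx T x0 z th) {k : ℕ} (hH : HH T x0 z th k) (j : ℕ) (hj : (j : ℤ) ≤ cyc T x0 th k)
    (hsm : Am T x0 th (ref T x0 th j) ≤ 0.95) (s : ℕ) :
    ref T x0 th j + s < k → (∀ m, ref T x0 th j ≤ m → m < ref T x0 th j + s →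
      cyc T x0 th m = j) → kap T (1525 + (ref T x0 th j + s)) = 0 := by
  induction s with
  | zero =>
    intro h1 _
    have hp := kap_before hCycb hDrift hRef hc hH j hj
    have hPi := hH (ref T x0 th j) h1
    have hW := wpos_small hE hCycb b hc (fun i hi => hH i (by omega)) (pre_of hPi)
      (by linarith)
    exact (hNop T (1525 + ref T x0 th j) (by omega) (fun m hm => valid_of hc hH m (by omega))
      hp hW).2.1
  | succ s ih =>
    intro h1 h2
    have hp := ih (by omega) (fun m hm hm2 => h2 m hm (by omega))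
    have hPi := hH (ref T x0 th j + (s + 1)) h1
    have h3 := (hAm T x0 z th hc k hH j hj (ref T x0 th j + (s + 1)) (by omega) (by omega)
      h2).1
    have h4 : 0 ≤ ∑ m ∈ Finset.Ico (ref T x0 th j) (ref T x0 th j + (s + 1)), kk T x0 th m := by
      refine Finset.sum_nonneg fun m hm => ?_
      rw [Finset.mem_Ico] at hm
      exact kk_nonneg a hc hH (by omega)
    have hW := wpos_small hE hCycb b hc (fun i hi => hH i (by omega)) (pre_of hPi)
      (by norm_num at h3 ⊢; linarith)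
    have h5 : 1525 + (ref T x0 th j + (s + 1)) - 1 = 1525 + (ref T x0 th j + s) := by omega
    exact (hNop T (1525 + (ref T x0 th j + (s + 1))) (by omega)
      (fun m hm => valid_of hc hH m (by omega)) (by rw [h5]; exact hp) hW).2.1

/-- one cycle -/
theorem one_cycle (hE : EOneStmt) (hCycb : CycbStmt) (hDrift : DriftStmt) (hRef : RefStmt)
    (hAm : AmStmt) (hNop : NopStmt) (a : AlgA) (b : NumA) {T x0 z : ℝ} {th : ℂ}
    (hc : Ctx T x0 z th) {k : ℕ} (hH : HH T x0 z th k) (j : ℕ) (hj : (j : ℤ) ≤ cyc T x0 th k)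
    (hlo : 0.9217 ≤ Am T x0 th (ref T x0 th j)) (i : ℕ) (hi : ref T x0 th j ≤ i) (hik : i ≤ k)
    (hcy : ∀ m, ref T x0 th j ≤ m → m < i → cyc T x0 th m = j) : 0.9217 ≤ Am T x0 th i := by
  obtain ⟨_, h1, h2⟩ := hAm T x0 z th hc k hH j hj i hi hik hcy
  by_cases hsm : Am T x0 th (ref T x0 th j) ≤ 0.95
  · have h3 : ∑ m ∈ Finset.Ico (ref T x0 th j) i, zz T x0 m = 0 := by
      refine Finset.sum_eq_zero fun m hm => ?_
      rw [Finset.mem_Ico] at hm
      obtain ⟨s, rfl⟩ : ∃ s, m = ref T x0 th j + s := ⟨m - ref T x0 th j, by omega⟩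
      exact zz_zero a hc hH (by omega) (quiet_cycle hE hCycb hDrift hRef hAm hNop a b hc hH j hj
        hsm s (by omega) (fun m' h4 h5 => hcy m' h4 (by omega)))
    rw [h3] at h1
    linarith
  · push Not at hsm
    norm_num at h2 hsm ⊢
    linarith

theorem alo (a : AlgA) (b : NumA) (hE : EOneStmt) (hCycb : CycbStmt) (hDrift : DriftStmt)
    (hRef : RefStmt) (hAm : AmStmt) (hNop : NopStmt) : AloStmt := by
  intro T x0 z th hc k hH
  obtain ⟨hr0, hr1, hr2⟩ := hRef T x0 z th hc k hH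
  have key : ∀ j : ℕ, (j : ℤ) ≤ cyc T x0 th k → 0.9217 ≤ Am T x0 th (ref T x0 th j) := by
    intro j
    induction j with
    | zero =>
      intro _
      rw [hr1]
      have h := (abs_le.mp hc.sim.Abd).1
      show 0.9217 ≤ ‖xin T x0 th (1525 + 0)‖
      rw [add_zero]
      norm_num at h ⊢
      linarith
    | succ j ih =>
      intro hj
      have hj' : (j : ℤ) ≤ cyc T x0 th k := by
        push_cast at hj
        omega
      obtain ⟨h1, _, _, _, h5, _⟩ := hr2 (j + 1) hj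
      obtain ⟨g1, g2, _, _, _, g6, _⟩ := hr2 j hj'
      have hle : ref T x0 th j ≤ ref T x0 th (j + 1) := by
        by_contra hcon
        push Not at hcon
        have h6 := (hr2 j hj').2.2.2.2.1 _ hcon
        rw [(hr2 (j + 1) hj).2.1] at h6
        push_cast at h6
        omega
      refine one_cycle hE hCycb hDrift hRef hAm hNop a b hc hH j hj' (ih hj') _ hle h1 ?_
      intro m hm1 hm2
      have h6 := h5 m hm2
      have h7 := g6 m hm1 (by omega)
      push_cast at h6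
      omega
  obtain ⟨J, hJ⟩ : ∃ J : ℕ, cyc T x0 th k = J := ⟨(cyc T x0 th k).toNat, by omega⟩
  have hJ' : (J : ℤ) ≤ cyc T x0 th k := hJ.ge
  obtain ⟨g1, g2, _, _, _, g6, _⟩ := hr2 J hJ'
  have h := one_cycle hE hCycb hDrift hRef hAm hNop a b hc hH J hJ' (key J hJ') k g1 le_rfl (by
    intro m hm1 hm2
    have h7 := g6 m hm1 (by omega)
    have h8 := (hDrift T x0 z th hc k hH m k (by omega) le_rfl).1
    omega)
  linarith

end SA.H84
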