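import Pool.Agent.Helper88_SA.StmtP

/-! C16: the lower bound for W by cells. -/

namespace SA.H84

open SA

theorem omg_pos {T x0 z : ℝ} {th : ℂ} (h : NumRoot T x0 z th) : 0 < omg th := by
  have h1 := abs_le.mp h.omg_enc
  have h2 : (1 : ℝ) / 10 ^ 12 ≤ 0.1 := by norm_num
  linarith [h1.1]

theorem omg_per {T x0 z : ℝ} {th : ℂ} (h : NumRoot T x0 z th) :
    omg th * per th = 2 * Real.pi := by
  unfold per
  have h1 := omg_pos h
  field_simp

theorem cos_pp {T x0 z : ℝ} {th : ℂ} (h : NumRoot T x0 z th) (k : ℕ) :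
    Real.cos (omg th * pp T x0 th k) = Real.cos (omg th * ph T x0 th k) := by
  unfold pp
  have h1 : omg th * (ph T x0 th k + cyc T x0 th k * per th) =
      omg th * ph T x0 th k + cyc T x0 th k * (2 * Real.pi) := by
    rw [← omg_per h]
    ring
  rw [h1, Real.cos_add_int_mul_two_pi]

theorem cos_back {T x0 z : ℝ} {th : ℂ} (h : NumRoot T x0 z th) (k i : ℕ) :
    Real.cos (omg th * pp T x0 th i) =
      Real.cos (omg th * (pp T x0 th k + (ph T x0 th i - ph T x0 th k))) := by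
  rw [cos_pp h i]
  unfold pp
  have h1 : omg th * (ph T x0 th k + cyc T x0 th k * per th + (ph T x0 th i - ph T x0 th k)) =
      omg th * ph T x0 th i + cyc T x0 th k * (2 * Real.pi) := by
    rw [← omg_per h]
    ring
  rw [h1, Real.cos_add_int_mul_two_pi]

theorem cdiv_ge (a b : ℤ) (hb : 0 < b) : (a : ℝ) ≤ (cdiv a b : ℝ) * b := by
  have h1 : (-a) / b * b ≤ -a := Int.ediv_mul_le _ hb.ne'
  unfold cdiv
  have h2 : a ≤ -((-a) / b) * b := by linarith
  exact_mod_cast h2

theorem ew (hE : EOneStmt) (hBack : BackStmt) (hCycb : CycbStmt) : EWStmt := by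
  intro T x0 z th hc k hH hP t ht hcell
  have h1 := hE T x0 z th hc k hH hP t ht hcell
  refine le_trans ?_ h1
  -- positivity and amplitude
  have hC : 0 < Ck T x0 (k - t) ∧ Am T x0 th (k - t) ≤ 1.0573 := by
    by_cases h0 : t = 0
    · subst h0
      exact ⟨hP.Cpos, hP.Ahi⟩
    · have h2 := hH (k - t) (by omega)
      exact ⟨h2.Cpos, h2.Ahi⟩
  have hA0 : 0 ≤ Am T x0 th (k - t) := norm_nonneg _
  apply mul_le_mul_of_nonneg_left _ hC.1.le
  obtain ⟨hc1, _, hc3, hc4, _⟩ := hCycb T x0 z th hc k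
  obtain ⟨hb1, _⟩ := hBack T x0 z th hc k hH t ht hcell
  rw [cos_back hc.nr k (k - t)]
  have hb2 := abs_le.mp hb1
  set c := cell T x0 th k with hcdef
  set φ := pp T x0 th k + (ph T x0 th (k - t) - ph T x0 th k) with hφ
  have ht0 : (0 : ℝ) ≤ t := Nat.cast_nonneg _
  by_cases hcase : c + 8 * t < -64
  · have hper := abs_le.mp hc.nr.per_enc
    have h3 : ((c + 8 * t : ℤ) : ℝ) ≤ -65 := by
      have : c + 8 * t ≤ -65 := by omega
      exact_mod_cast this
    push_cast at h3
    have h4 := hc.nc.far φ (by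
      have : (1 : ℝ) / 10 ^ 9 ≤ 0.001 := by norm_num
      linarith [hper.2, hb2.1]) (by linarith [hb2.2])
    unfold Wt
    rw [if_pos hcase]
    have h5 : Am T x0 th (k - t) * Real.cos (omg th * φ) ≤ 0.55 := by
      have h6 : Am T x0 th (k - t) * Real.cos (omg th * φ) ≤ Am T x0 th (k - t) * 0.5197 :=
        mul_le_mul_of_nonneg_left h4 hA0
      linarith [hC.2]
    push_cast
    linarith
  · have h4 := hc.nc.up (c + 8 * t) (by omega) hcell φ (by
      push_cast
      linarith [hb2.1]) (by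
      push_cast
      linarith [hb2.2])
    unfold Wt
    rw [if_neg hcase]
    have h8 : cosmaxN (c + 8 * t) ≤ max 0 (cosmaxN (c + 8 * t)) := le_max_right _ _
    have h9 : 0 ≤ max 0 (cosmaxN (c + 8 * t)) := le_max_left _ _
    generalize max 0 (cosmaxN (c + 8 * t)) = M at h8 h9 ⊢
    have h7 := cdiv_ge (10573 * M) (10 ^ 4) (by norm_num)
    generalize cdiv (10573 * M) (10 ^ 4) = N at h7 ⊢
    have h8' : (cosmaxN (c + 8 * t) : ℝ) ≤ M := by exact_mod_cast h8
    have h9' : (0 : ℝ) ≤ M := by exact_mod_cast h9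
    push_cast at h7 ⊢
    have h5 : Am T x0 th (k - t) * Real.cos (omg th * φ) ≤ 1.0573 * ((M : ℝ) / 10 ^ 10) := by
      have h6 : Real.cos (omg th * φ) ≤ (M : ℝ) / 10 ^ 10 :=
        le_trans h4 (div_le_div_of_nonneg_right h8' (by norm_num))
      calc Am T x0 th (k - t) * Real.cos (omg th * φ)
          ≤ Am T x0 th (k - t) * ((M : ℝ) / 10 ^ 10) := mul_le_mul_of_nonneg_left h6 hA0
        _ ≤ 1.0573 * ((M : ℝ) / 10 ^ 10) := mul_le_mul_of_nonneg_right hC.2 (by positivity)
    have h10 : 1.0573 * ((M : ℝ) / 10 ^ 10) ≤ (N : ℝ) / 10 ^ 10 := by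
      rw [← mul_div_assoc]
      apply div_le_div_of_nonneg_right _ (by norm_num)
      linarith
    linarith

end SA.H84
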