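import Pool.Agent.Helper88_SA.StmtG

/-! FLOWQ: the flow of a mixed searcher strategy. -/

namespace SA.H84

open Filter Topology

/-- remaining searches before period n+1 -/
def rem (s : Finset ℕ) (n : ℕ) : ℕ := 56 - cnt s (n + 1)

theorem cnt_le (s : Finset ℕ) (i : ℕ) : cnt s i ≤ s.card := Finset.card_filter_le _ _

theorem cnt_succ (s : Finset ℕ) (i : ℕ) : cnt s (i + 1) = cnt s i + if i ∈ s then 1 else 0 := by
  unfold cnt
  by_cases h : i ∈ s
  · rw [if_pos h]
    have : s.filter (fun j => j < i + 1) = insert i (s.filter (fun j => j < i)) := by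
      ext j
      simp only [Finset.mem_filter, Finset.mem_insert]
      constructor
      · rintro ⟨h1, h2⟩
        by_cases e : j = i
        · exact Or.inl e
        · exact Or.inr ⟨h1, by omega⟩
      · rintro (h1 | h1)
        · subst h1
          exact ⟨h, by omega⟩
        · exact ⟨h1.1, by omega⟩
    rw [this, Finset.card_insert_of_notMem (by simp)]
  · rw [if_neg h, add_zero]
    congr 1
    ext j
    simp only [Finset.mem_filter]
    constructor
    · rintro ⟨h1, h2⟩
      refine ⟨h1, ?_⟩
      rcases Nat.lt_succ_iff_lt_or_eq.1 h2 with h3 | h3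
      · exact h3
      · subst h3
        exact absurd h1 h
    · rintro ⟨h1, h2⟩
      exact ⟨h1, by omega⟩

theorem rem_le (s : Finset ℕ) (n : ℕ) : rem s n ≤ 56 := Nat.sub_le _ _

theorem rem_zero {s : Finset ℕ} (h : IsStrategy 56 s) : rem s 0 = 56 := by
  have h0 : cnt s 1 = 0 := by
    unfold cnt
    rw [Finset.card_eq_zero, Finset.filter_eq_empty_iff]
    intro j hj
    have := h.2 j hj
    omega
  unfold rem
  rw [h0]

theorem rem_cast {s : Finset ℕ} (h : IsStrategy 56 s) (n : ℕ) :
    ((rem s n : ℕ) : ℝ) = 56 - (cnt s (n + 1) : ℝ) := by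
  have h1 : cnt s (n + 1) ≤ 56 := by
    have := cnt_le s (n + 1)
    rw [h.1] at this
    exact this
  unfold rem
  rw [Nat.cast_sub h1]
  norm_num

/-- at a search some search remains -/
theorem rem_pos {s : Finset ℕ} (h : IsStrategy 56 s) {n : ℕ} (hn : n + 1 ∈ s) : 1 ≤ rem s n := by
  have h1 := cnt_succ s (n + 1)
  rw [if_pos hn] at h1
  have h2 := cnt_le s (n + 1 + 1)
  rw [h.1] at h2
  unfold rem
  omega

theorem rem_succ {s : Finset ℕ} (n : ℕ) :
    rem s (n + 1) = rem s n - if n + 1 ∈ s then 1 else 0 := by
  unfold rem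
  rw [cnt_succ s (n + 1)]
  omega

theorem rem_end {s : Finset ℕ} (h : IsStrategy 56 s) : ∃ N, ∀ n, N ≤ n → rem s n = 0 := by
  refine ⟨s.sup id, fun n hn => ?_⟩
  have : cnt s (n + 1) = 56 := by
    unfold cnt
    rw [Finset.filter_true_of_mem, h.1]
    intro j hj
    have : j ≤ s.sup id := Finset.le_sup (f := id) hj
    omega
  unfold rem
  rw [this]

/-- G2 -/
theorem flowq (hPay : PayStmt) : FlowQStmt := by
  intro q hq0 hqs hq
  have hsum : Summable q := hq.summable
  -- indicator sums
  have hind : ∀ P : Finset ℕ → Prop, ∀ _ : DecidablePred P,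
      Summable (fun s => if P s then q s else 0) := by
    intro P _
    refine Summable.of_nonneg_of_le (fun s => ?_) (fun s => ?_) hsum
    · by_cases h : P s
      · rw [if_pos h]; exact hq0 s
      · rw [if_neg h]
    · by_cases h : P s
      · rw [if_pos h]
      · rw [if_neg h]; exact hq0 s
  set mu : ℕ → ℕ → ℝ := fun n r => ∑' s, if rem s n = r then q s else 0 with hmu
  set sg : ℕ → ℕ → ℝ := fun n r => ∑' s, if rem s n = r ∧ n + 1 ∈ s then q s else 0 with hsg
  have hflow : IsFlow mu sg := by
    refine ⟨?_, ?_, ?_, ?_, ?_, ?_⟩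
    · intro r
      have e : ∀ s, (if rem s 0 = r then q s else 0) = if r = 56 then q s else 0 := by
        intro s
        by_cases h : q s = 0
        · rw [h]; simp
        · rw [rem_zero (hqs s h)]
          by_cases h2 : r = 56
          · rw [if_pos h2, if_pos h2.symm]
          · rw [if_neg h2, if_neg (fun h3 => h2 h3.symm)]
      rw [hmu]
      simp only [e]
      by_cases h2 : r = 56
      · simp only [h2, if_true]
        exact hq.tsum_eq
      · simp only [h2, if_false]
        exact tsum_zero
    · intro n r
      refine tsum_nonneg fun s => ?_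
      split_ifs
      · exact hq0 s
      · exact le_rfl
    · intro n r
      refine Summable.tsum_le_tsum (fun s => ?_) (hind _ _) (hind _ _)
      by_cases h1 : rem s n = r
      · by_cases h2 : n + 1 ∈ s
        · rw [if_pos ⟨h1, h2⟩, if_pos h1]
        · rw [if_neg (fun h => h2 h.2), if_pos h1]
          exact hq0 s
      · rw [if_neg (fun h => h1 h.1), if_neg h1]
    · intro n
      have e : ∀ s, (if rem s n = 0 ∧ n + 1 ∈ s then q s else 0) = 0 := by
        intro s
        split_ifs with h
        · by_contra h2
          have := rem_pos (hqs s h2) h.2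
          omega
        · rfl
      rw [hsg]
      simp only [e]
      exact tsum_zero
    · intro n r
      rw [hmu, hsg]
      simp only
      rw [← (hind (fun s => rem s n = r) _).tsum_sub (hind (fun s => rem s n = r ∧ n + 1 ∈ s) _),
        ← ((hind (fun s => rem s n = r) _).sub
          (hind (fun s => rem s n = r ∧ n + 1 ∈ s) _)).tsum_add
          (hind (fun s => rem s n = r + 1 ∧ n + 1 ∈ s) _)]
      congr 1
      ext s
      by_cases h0 : q s = 0
      · rw [h0]; simp
      have hstr := hqs s h0
      by_cases h2 : n + 1 ∈ s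
      · have h3 := rem_pos hstr h2
        have h4 := rem_succ (s := s) n
        rw [if_pos h2] at h4
        simp only [h2, and_true]
        rw [h4]
        by_cases h5 : rem s n = r + 1
        · rw [if_pos (show rem s n - 1 = r by omega), if_pos h5,
            if_neg (show ¬ rem s n = r by omega)]
          ring
        · rw [if_neg (show ¬ rem s n - 1 = r by omega), if_neg h5]
          ring
      · have h4 := rem_succ (s := s) n
        rw [if_neg h2, Nat.sub_zero] at h4
        simp only [h2, and_false, if_false]
        rw [h4]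
        ring
    · intro n r hr
      have e : ∀ s, (if rem s n = r then q s else 0) = 0 := by
        intro s
        rw [if_neg]
        have := rem_le s n
        omega
      rw [hmu]
      simp only [e]
      exact tsum_zero
  have hR : ∀ n, fR mu n = ∑' s, q s * (rem s n : ℝ) := by
    intro n
    unfold fR
    rw [hmu]
    simp only
    have e1 : ∀ r : ℕ, (r : ℝ) * (∑' s, if rem s n = r then q s else 0) =
        ∑' s, (r : ℝ) * (if rem s n = r then q s else 0) := fun r => tsum_mul_left.symm
    simp only [e1]
    rw [← Summable.tsum_finsetSum (fun r _ => (hind (fun s => rem s n = r) _).mul_left _)]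
    congr 1
    ext s
    rw [Finset.sum_eq_single (rem s n)]
    · rw [if_pos rfl, mul_comm]
    · intro r _ hr
      rw [if_neg (fun h => hr h.symm), mul_zero]
    · intro h
      exact absurd (Finset.mem_range.2 (by have := rem_le s n; omega)) h
  have hE : ∀ n, fE sg n = ∑' s, q s * (if n + 1 ∈ s then (rem s n : ℝ) else 0) := by
    intro n
    unfold fE
    rw [hsg]
    simp only
    have e1 : ∀ r : ℕ, (r : ℝ) * (∑' s, if rem s n = r ∧ n + 1 ∈ s then q s else 0) =
        ∑' s, (r : ℝ) * (if rem s n = r ∧ n + 1 ∈ s then q s else 0) :=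
      fun r => tsum_mul_left.symm
    simp only [e1]
    rw [← Summable.tsum_finsetSum
      (fun r _ => (hind (fun s => rem s n = r ∧ n + 1 ∈ s) _).mul_left _)]
    congr 1
    ext s
    by_cases h2 : n + 1 ∈ s
    · rw [if_pos h2, Finset.sum_eq_single (rem s n)]
      · rw [if_pos ⟨rfl, h2⟩, mul_comm]
      · intro r _ hr
        rw [if_neg (fun h => hr h.1.symm), mul_zero]
      · intro h
        exact absurd (Finset.mem_range.2 (by have := rem_le s n; omega)) h
    · rw [if_neg h2, mul_zero]
      refine Finset.sum_eq_zero fun r _ => ?_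
      rw [if_neg (fun h => h2 h.2), mul_zero]
  have hSR : ∀ n, Summable (fun s => q s * (rem s n : ℝ)) := by
    intro n
    refine Summable.of_nonneg_of_le (fun s => mul_nonneg (hq0 s) (Nat.cast_nonneg _))
      (fun s => ?_) (hsum.mul_right 56)
    refine mul_le_mul_of_nonneg_left ?_ (hq0 s)
    exact_mod_cast rem_le s n
  have hSE : ∀ n, Summable (fun s => q s * (if n + 1 ∈ s then (rem s n : ℝ) else 0)) := by
    intro n
    refine Summable.of_nonneg_of_le (fun s => mul_nonneg (hq0 s) ?_)
      (fun s => mul_le_mul_of_nonneg_left ?_ (hq0 s)) (hSR n)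
    · split_ifs
      · exact Nat.cast_nonneg _
      · exact le_rfl
    · split_ifs
      · exact le_rfl
      · exact Nat.cast_nonneg _
  refine ⟨mu, sg, hflow, ?_, ?_⟩
  · simp only [hR]
    have h0 : (0 : ℝ) = ∑' _ : Finset ℕ, (0 : ℝ) := tsum_zero.symm
    rw [h0]
    refine tendsto_tsum_of_dominated_convergence (bound := fun s => q s * 56)
      (hsum.mul_right 56) (fun s => ?_) (Eventually.of_forall fun n s => ?_)
    · by_cases h : q s = 0
      · rw [h]
        simp
      · obtain ⟨N, hN⟩ := rem_end (hqs s h)
        refine tendsto_const_nhds.congr' ?_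
        filter_upwards [eventually_ge_atTop N] with n hn
        rw [hN n hn]
        simp
    · rw [Real.norm_of_nonneg (mul_nonneg (hq0 s) (Nat.cast_nonneg _))]
      refine mul_le_mul_of_nonneg_left ?_ (hq0 s)
      exact_mod_cast rem_le s n
  · intro T hT n
    unfold fC
    rw [hE]
    simp only [hR]
    rw [← Summable.tsum_finsetSum (fun j _ => hSR j), ← tsum_mul_left, ← tsum_mul_left,
      ← (summable_sum fun j _ => hSR j).tsum_add ((hSE n).mul_left T)]
    congr 1
    ext s
    by_cases h : q s = 0
    · rw [h]
      simp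
    · have hstr := hqs s h
      have h1 := hPay T s hstr n
      have h2 : 56 * (q s * payoff 56 T s (n + 1)) = q s * (56 * payoff 56 T s (n + 1)) := by
        ring
      rw [h2, h1, ← Finset.mul_sum]
      have h3 : ∀ j ∈ Finset.range (n + 1), ((rem s j : ℕ) : ℝ) = 56 - (cnt s (j + 1) : ℝ) :=
        fun j _ => rem_cast hstr j
      rw [Finset.sum_congr rfl h3]
      by_cases h4 : n + 1 ∈ s
      · rw [if_pos h4, if_pos h4, rem_cast hstr n]
        ring
      · rw [if_neg h4, if_neg h4]
        ring

end SA.H84
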