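import Pool.Agent.Helper84_SA.TailW

/-! One step of the lower bound of the range of y n / S (n+1). -/

namespace SA.H84

open SA

theorem sum_anti (f : ℕ → ℝ) (hf : ∀ i j, i ≤ j → f j ≤ f i) (W : Finset ℕ) :
    ∑ l ∈ W, f l ≤ ∑ j ∈ Finset.range W.card, f j := by
  induction W using Finset.induction_on_max with
  | empty => simp
  | insert a s ha ih =>
    have h1 : a ∉ s := fun h => lt_irrefl _ (ha a h)
    have h2 : s.card ≤ a := by
      have h3 : s ⊆ Finset.range a := fun x hx => Finset.mem_range.mpr (ha x hx)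
      have h4 := Finset.card_le_card h3
      rwa [Finset.card_range] at h4
    rw [Finset.sum_insert h1, Finset.card_insert_of_notMem h1, Finset.sum_range_succ]
    linarith [hf _ _ h2]

theorem geo_lo (s : ℕ → ℝ) (h : ∀ l, 0.9685 * s l ≤ s (l + 1)) (l : ℕ) :
    0.9685 ^ l * s 0 ≤ s l := by
  induction l with
  | zero => simp
  | succ l ih =>
    have h1 := h l
    have h2 : (0.9685 : ℝ) ^ (l + 1) * s 0 = 0.9685 * (0.9685 ^ l * s 0) := by
      rw [pow_succ]; ring
    rw [h2]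
    linarith

theorem geo_hi (s : ℕ → ℝ) (h : ∀ l, s (l + 1) ≤ 0.97701 * s l) (l : ℕ) :
    s l ≤ 0.97701 ^ l * s 0 := by
  induction l with
  | zero => simp
  | succ l ih =>
    have h1 := h l
    have h2 : (0.97701 : ℝ) ^ (l + 1) * s 0 = 0.97701 * (0.97701 ^ l * s 0) := by
      rw [pow_succ]; ring
    rw [h2]
    linarith

theorem geo_back (s : ℕ → ℝ) (h : ∀ l, 1.02354 * s (l + 1) ≤ s l) (j m : ℕ) :
    1.02354 ^ j * s (m + j) ≤ s m := by
  induction j with
  | zero => simp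
  | succ j ih =>
    have h1 := h (m + j)
    have h2 : (1.02354 : ℝ) ^ (j + 1) * s (m + (j + 1)) =
        1.02354 ^ j * (1.02354 * s (m + j + 1)) := by
      rw [pow_succ, ← add_assoc]; ring
    rw [h2]
    have h3 : (0 : ℝ) < 1.02354 ^ j := by positivity
    nlinarith

theorem gsum_ge (m : ℕ) (h1 : 19 ≤ m) (h2 : m ≤ 39) :
    14.46 + ((m : ℝ) - 19) * 0.4085 ≤ ∑ l ∈ Finset.range m, (0.9685 : ℝ) ^ l := by
  rw [geom_sum_eq (by norm_num)]
  interval_cases m <;> norm_num

theorem wsum_le (w : ℕ) (h : w ≤ 10) :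
    1.2 * ∑ j ∈ Finset.range w, (0.97701 : ℝ) ^ (j + 1) ≤ 1.0855 + 0.951 * w := by
  interval_cases w <;> norm_num [Finset.sum_range_succ]

theorem qsum_ge : (36.954777 : ℝ) ≤ ∑ j ∈ Finset.range 27, (1.02354 : ℝ) ^ (27 - j) := by
  norm_num [Finset.sum_range_succ]

/-- the numerical core -/
theorem core (T : ℝ) (hT1 : 36.954776 ≤ T) (hT2 : T ≤ 36.954777) (s Y : ℕ → ℝ)
    (hs : ∀ l, 0 < s l) (hY : ∀ l, s l = s (l + 1) + Y l / T)
    (hlo : ∀ l, 0.87 * s (l + 1) ≤ Y l) (hhi : ∀ l, Y l ≤ 1.2 * s (l + 1))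
    (k w : ℕ) (hk1 : 46 ≤ k) (hk2 : k ≤ 56) (W : Finset ℕ)
    (hw : W.card = w) (hw10 : w ≤ 10) (hkw : k = 46 → w = 0) (c : ℝ) (hc : c * k ≤
      14.46 + ((k : ℝ) + w - 46) * 0.4085 + 36.954776 - (1.0855 + 0.951 * w)) :
    c * k * s 0 ≤ ∑ l ∈ Finset.range (k + w), s l + ∑ l ∈ Finset.range (k + w), Y l -
      ∑ l ∈ W, Y l := by
  have hT0 : 0 < T := by linarith
  have hYT : ∀ l, Y l = T * (s l - s (l + 1)) := by
    intro l
    have := hY l
    field_simp at this
    linarith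
  have hu : ∀ l, 1.02354 * s (l + 1) ≤ s l := fun l => S_up hT1 hT2 (hY l) (hs _) (hlo l)
  have hd : ∀ l, s l ≤ 1.03248 * s (l + 1) := fun l => S_dn hT1 (hY l) (hs _) (hhi l)
  have hu' : ∀ l, s (l + 1) ≤ 0.97701 * s l := by
    intro l
    have h1 := hu l
    have h2 := hs (l + 1)
    linarith
  have hd' : ∀ l, 0.9685 * s l ≤ s (l + 1) := by
    intro l
    have h1 := hd l
    have h2 := hs (l + 1)
    linarith
  have htel : ∑ l ∈ Finset.range (k + w), Y l = T * (s 0 - s (k + w)) := by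
    have : ∀ m, ∑ l ∈ Finset.range m, Y l = T * (s 0 - s m) := by
      intro m
      induction m with
      | zero => simp
      | succ m ih => rw [Finset.sum_range_succ, ih, hYT m]; ring
    exact this _
  obtain ⟨m, hm⟩ : ∃ m, k + w = m + 27 := ⟨k + w - 27, by omega⟩
  have hsplit : ∑ l ∈ Finset.range (k + w), s l
      = ∑ l ∈ Finset.range m, s l + ∑ j ∈ Finset.range 27, s (m + j) := by
    rw [hm, Finset.sum_range_add]
  have h3 : T * s (k + w) ≤ ∑ j ∈ Finset.range 27, s (m + j) := by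
    have h31 : ∑ j ∈ Finset.range 27, (1.02354 : ℝ) ^ (27 - j) * s (k + w) ≤
        ∑ j ∈ Finset.range 27, s (m + j) := by
      apply Finset.sum_le_sum
      intro j hj
      rw [Finset.mem_range] at hj
      have := geo_back s hu (27 - j) (m + j)
      have he : m + j + (27 - j) = k + w := by omega
      rw [he] at this
      exact this
    rw [← Finset.sum_mul] at h31
    have h32 := qsum_ge
    have h33 := hs (k + w)
    nlinarith
  have h4 : (14.46 + ((m : ℝ) - 19) * 0.4085) * s 0 ≤ ∑ l ∈ Finset.range m, s l := by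
    have h41 : ∑ l ∈ Finset.range m, (0.9685 : ℝ) ^ l * s 0 ≤ ∑ l ∈ Finset.range m, s l := by
      apply Finset.sum_le_sum
      intro l _
      exact geo_lo s hd' l
    rw [← Finset.sum_mul] at h41
    have h42 := gsum_ge m (by omega) (by omega)
    have h43 := hs 0
    nlinarith
  have hanti : ∀ i j, i ≤ j → s (j + 1) ≤ s (i + 1) := by
    intro i j h
    induction j, h using Nat.le_induction with
    | base => exact le_rfl
    | succ j _ ih =>
      refine le_trans ?_ ih
      have h1 := hu (j + 1)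
      have h2 := hs (j + 1 + 1)
      linarith
  have h5 : ∑ l ∈ W, Y l ≤ (1.0855 + 0.951 * w) * s 0 := by
    have h51 : ∑ l ∈ W, Y l ≤ ∑ l ∈ W, 1.2 * s (l + 1) := Finset.sum_le_sum fun l _ => hhi l
    rw [← Finset.mul_sum] at h51
    have h52 := sum_anti (fun l => s (l + 1)) hanti W
    rw [hw] at h52
    have h53 : ∑ j ∈ Finset.range w, s (j + 1) ≤
        ∑ j ∈ Finset.range w, (0.97701 : ℝ) ^ (j + 1) * s 0 :=
      Finset.sum_le_sum fun j _ => geo_hi s hu' (j + 1)
    rw [← Finset.sum_mul] at h53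
    have h54 := wsum_le w hw10
    have h55 := hs 0
    have h56 : (1.2 * ∑ j ∈ Finset.range w, (0.97701 : ℝ) ^ (j + 1)) * s 0 ≤
        (1.0855 + 0.951 * w) * s 0 := mul_le_mul_of_nonneg_right h54 h55.le
    simp only at h52
    linarith
  have hmk : (m : ℝ) = k + w - 27 := by
    have : ((k + w : ℕ) : ℝ) = ((m + 27 : ℕ) : ℝ) := by rw [hm]
    push_cast at this
    linarith
  have h0 := hs 0
  rw [htel, hsplit]
  have h6 : T * (s 0 - s (k + w)) = T * s 0 - T * s (k + w) := by ring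
  rw [h6]
  have h7 : 36.954776 * s 0 ≤ T * s 0 := mul_le_mul_of_nonneg_right hT1 h0.le
  have h8 := mul_le_mul_of_nonneg_right hc h0.le
  rw [hmk] at h4
  nlinarith

theorem rlo (hPath : PathStmt) (hLow : LowStmt) : RangeLoStmt := by
  intro T z κ N S y D hT1 hT2 hsol hκ hsep n hn H
  have hk10 := hκ n hn
  obtain ⟨L, W, hW, hL, hW10, hW0, hD⟩ :=
    hPath T z κ N S y D hsol hκ hsep (n + 1) (56 - κ n) (by omega) (by omega) (by omega)
  have hlow := hLow T z κ N S y D hsol hκ (n + 1 + L) 46 (by omega) le_rfl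
  have hyd := hsol.y_def n
  rw [hlow] at hD
  have hc := fun c hc => core T (T_lo hT1) (T_hi hT2) (fun l => S (n + 1 + l))
    (fun l => y (n + 1 + l)) (fun l => hsol.S_pos _) (fun l => hsol.S_step _)
    (fun l => (H (n + 1 + l) (by omega)).1) (fun l => (H (n + 1 + l) (by omega)).2)
    (56 - κ n) W.card (by omega) (by omega) W rfl hW10 hW0 c hc
  have hLk : 56 - κ n + W.card = L + 46 := by omega
  rw [hLk, Finset.sum_range_add, Finset.sum_range_add] at hc
  have hsd : ∑ l ∈ Finset.range L \ W, y (n + 1 + l)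
      = ∑ l ∈ Finset.range L, y (n + 1 + l) - ∑ l ∈ W, y (n + 1 + l) := by
    rw [← Finset.sum_sdiff hW]
    ring
  rw [hsd, Finset.sum_add_distrib] at hD
  have hpos : (0 : ℝ) < ((56 - κ n : ℕ) : ℝ) := by
    have : 0 < 56 - κ n := by omega
    exact_mod_cast this
  have h1 : ((56 - κ n : ℕ) : ℝ) * y n = D (n + 1) (56 - κ n) := by
    rw [hyd]
    field_simp
  simp only [add_zero, ← add_assoc] at hc
  have hw' : (W.card : ℝ) ≤ 10 := by exact_mod_cast hW10
  have hw0 : (0 : ℝ) ≤ W.card := Nat.cast_nonneg _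
  have key : ∀ c : ℝ, c * ((56 - κ n : ℕ) : ℝ) ≤
      14.46 + (((56 - κ n : ℕ) : ℝ) + W.card - 46) * 0.4085 + 36.954776 -
        (1.0855 + 0.951 * W.card) → c * S (n + 1) ≤ y n := by
    intro c hcc
    have h2 := hc c hcc
    have h3 : c * ((56 - κ n : ℕ) : ℝ) * S (n + 1) ≤ ((56 - κ n : ℕ) : ℝ) * y n := by
      rw [h1, hD]
      linarith
    have h4 : ((56 - κ n : ℕ) : ℝ) * (c * S (n + 1)) ≤ ((56 - κ n : ℕ) : ℝ) * y n := by
      linarith
    exact le_of_mul_le_mul_left h4 hpos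
  have hk46 : 46 ≤ 56 - κ n := by omega
  have hk56 : 56 - κ n ≤ 56 := by omega
  generalize 56 - κ n = k at key hk46 hk56 hW0
  have hk46' : (46 : ℝ) ≤ k := by exact_mod_cast hk46
  have hk56' : (k : ℝ) ≤ 56 := by exact_mod_cast hk56
  refine ⟨key _ ?_, fun h => key _ ?_, fun h => key _ ?_, fun h => key _ ?_⟩
  · linarith
  · have h' : (k : ℝ) ≤ 54 := by exact_mod_cast h
    linarith
  · have h' : (k : ℝ) ≤ 52 := by exact_mod_cast h
    linarith
  · have h' : (k : ℝ) ≤ 49 := by exact_mod_cast h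
    linarith

end SA.H84
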