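import Pool.Agent.Helper88_SA.StmtD

/-! TAILW: the inequalities of the dual certificate in the tail. -/

namespace SA.H84

open Filter Topology

theorem T_lo {T : ℝ} (h : Tlo ≤ T) : (36.954776 : ℝ) ≤ T := by
  refine le_trans ?_ h
  unfold Tlo Tm
  norm_num

theorem T_hi {T : ℝ} (h : T ≤ Thi) : T ≤ (36.954777 : ℝ) := by
  refine le_trans h ?_
  unfold Thi Tm
  norm_num

theorem S_up {T s s1 y : ℝ} (hT : 36.954776 ≤ T) (hT' : T ≤ 36.954777) (hS : s = s1 + y / T)
    (hp : 0 < s1) (h1 : 0.87 * s1 ≤ y) : 1.02354 * s1 ≤ s := by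
  have h2 : 0.02354 * s1 ≤ y / T := by
    rw [le_div_iff₀ (by linarith)]
    have h3 : s1 * T ≤ s1 * 36.954777 := mul_le_mul_of_nonneg_left hT' hp.le
    nlinarith
  linarith

theorem S_dn {T s s1 y : ℝ} (hT : 36.954776 ≤ T) (hS : s = s1 + y / T)
    (hp : 0 < s1) (h1 : y ≤ 1.2 * s1) : s ≤ 1.03248 * s1 := by
  have h2 : y / T ≤ 0.03248 * s1 := by
    rw [div_le_iff₀ (by linarith)]
    have h3 : s1 * 36.954776 ≤ s1 * T := mul_le_mul_of_nonneg_left hT hp.le
    nlinarith
  linarith

/-- upper bounds for 2.2325 / 1.02354 ^ s, scale 10 ^ 6 -/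
def cUl : List ℕ :=
  [2232500,2181156,2130993,2081983,2034100,1987319,1941613,1896959,1853331,1810707,1769063,
   1728377,1688627,1649791,1611848,1574778,1538560,1503175,1468605,1434829,1401830,1369589,
   1338091,1307317,1277250,1247875,1219176,1191136,1163742,1136978,1110829,1085281,1060321,
   1035935,1012110,988833,966091,943873,922165,900956,880236,859991,840213,820889,802010,
   783565,765544,747937]
def cU (s : ℕ) : ℕ := cUl.getD s 0
/-- lower bounds for 1.8935 / 1.03248 ^ s, scale 10 ^ 6 -/
def vLl : List ℕ :=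
  [1893500,1833933,1776241,1720364,1666244,1613827,1563059,1513888,1466263,1420137,1375462,
   1332193,1290284,1249694,1210381,1172304,1135426,1099707,1065112,1031606,999153,967722,
   937279,907794,879236,851577,824788,798841,773711,749372]
def vL (s : ℕ) : ℕ := vLl.getD s 0

def lbk (k : ℕ) : ℕ := if k ≤ 49 then 93 else if k ≤ 52 then 91 else if k ≤ 54 then 89 else 87

theorem cU_ok : ∀ s < 48, 2232500 * 100000 ^ s ≤ cU s * 102354 ^ s := by decide +kernel
theorem vL_ok : ∀ s < 30, vL s * 103248 ^ s ≤ 1893500 * 100000 ^ s := by decide +kernel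
theorem cSum : ∀ k < 57, 46 ≤ k → ∀ r < k, 29 ≤ r →
    ∑ s ∈ Finset.Ico r k, cU (min (s + 1) 47) ≤ (k - r) * (lbk k * 10000) := by decide +kernel
theorem vSum : ∀ r < 30, 1200000 * r ≤ ∑ s ∈ Finset.range r, vL (s + 1) := by decide +kernel

theorem cU_real (s : ℕ) (hs : s < 48) : (2.2325 : ℝ) ≤ (cU s : ℝ) / 10 ^ 6 * 1.02354 ^ s := by
  have h := cU_ok s hs
  have h1 : (2232500 : ℝ) * 100000 ^ s ≤ (cU s : ℝ) * 102354 ^ s := by exact_mod_cast h
  have h2 : (1.02354 : ℝ) ^ s * 100000 ^ s = 102354 ^ s := by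
    rw [← mul_pow]
    norm_num
  have h3 : (0 : ℝ) < 100000 ^ s := by positivity
  rw [← h2, ← mul_assoc] at h1
  have h4 := le_of_mul_le_mul_right h1 h3
  linarith

theorem vL_real (s : ℕ) (hs : s < 30) : (vL s : ℝ) / 10 ^ 6 * 1.03248 ^ s ≤ (1.8935 : ℝ) := by
  have h := vL_ok s hs
  have h1 : (vL s : ℝ) * 103248 ^ s ≤ (1893500 : ℝ) * 100000 ^ s := by exact_mod_cast h
  have h2 : (1.03248 : ℝ) ^ s * 100000 ^ s = 103248 ^ s := by
    rw [← mul_pow]
    norm_num
  have h3 : (0 : ℝ) < 100000 ^ s := by positivity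
  rw [← h2, ← mul_assoc] at h1
  have h4 := le_of_mul_le_mul_right h1 h3
  linarith

theorem tel (f : ℕ → ℝ) {a b : ℕ} (h : a ≤ b) :
    ∑ s ∈ Finset.Ico a b, (f (s + 1) - f s) = f b - f a := by
  induction b, h using Nat.le_induction with
  | base => simp
  | succ b hb ih =>
    rw [Finset.sum_Ico_succ_top hb, ih]
    ring

/-- D6 -/
theorem tailw (hLow : LowStmt) (hRange : RangeStmt) (hLo : RangeLoStmt) : TailWStmt := by
  intro T z κ N S y D hT1 hT2 hz1 hz2 hD hκ hsep
  have hR := hRange T z κ N S y D hT1 hT2 hz1 hz2 hD hκ hsep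
  have hL := hLow T z κ N S y D hD hκ
  have hRL : ∀ n, 171 ≤ n → 0.87 * S (n + 1) ≤ y n ∧ (56 - κ n ≤ 54 → 0.89 * S (n + 1) ≤ y n) ∧
      (56 - κ n ≤ 52 → 0.91 * S (n + 1) ≤ y n) ∧ (56 - κ n ≤ 49 → 0.93 * S (n + 1) ≤ y n) :=
    fun n hn => hLo T z κ N S y D hT1 hT2 hD hκ hsep n hn
      (fun j hj => hR j (by omega))
  have ht1 := T_lo hT1
  have ht2 := T_hi hT2
  have hSp := hD.S_pos
  have hyp := hD.y_pos
  have hup : ∀ n, 171 ≤ n → 1.02354 * S (n + 1) ≤ S n := fun n hn =>
    S_up ht1 ht2 (hD.S_step n) (hSp _) (hR n hn).1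
  have hdn : ∀ n, 171 ≤ n → S n ≤ 1.03248 * S (n + 1) := fun n hn =>
    S_dn ht1 (hD.S_step n) (hSp _) (hR n hn).2
  have hanti : ∀ n m, n ≤ m → S m ≤ S n := by
    intro n m h
    induction m, h using Nat.le_induction with
    | base => exact le_rfl
    | succ m _ ih =>
      refine le_trans ?_ ih
      have h1 := hD.S_step m
      have h2 : 0 < y m / T := div_pos (hyp m) (by linarith)
      linarith
  have hgu : ∀ n, 171 ≤ n → S n + y n ≤ 2.2325 * S (n + 1) := by
    intro n hn
    have h1 := hdn n hn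
    have h2 := (hR n hn).2
    have h3 := hSp (n + 1)
    linarith
  have hgl : ∀ n, 171 ≤ n → 1.8935 * S (n + 1) ≤ S n + y n := by
    intro n hn
    have h1 := hup n hn
    have h2 := (hR n hn).1
    have h3 := hSp (n + 1)
    linarith
  have hpu : ∀ n, 171 ≤ n → ∀ s, S (n + s) * 1.02354 ^ s ≤ S n := by
    intro n hn s
    induction s with
    | zero => simp
    | succ s ih =>
      have h1 := hup (n + s) (by omega)
      have h2 : (0 : ℝ) < 1.02354 ^ s := by positivity
      have h3 := mul_le_mul_of_nonneg_right h1 h2.le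
      rw [pow_succ, ← add_assoc]
      linarith
  have hpd : ∀ n, 171 ≤ n → ∀ s, S n ≤ S (n + s) * 1.03248 ^ s := by
    intro n hn s
    induction s with
    | zero => simp
    | succ s ih =>
      have h1 := hdn (n + s) (by omega)
      have h2 : (0 : ℝ) < 1.03248 ^ s := by positivity
      have h3 := mul_le_mul_of_nonneg_right h1 h2.le
      rw [pow_succ, ← add_assoc]
      linarith
  have hcU : ∀ n s, 171 ≤ n → s < 48 → 2.2325 * S (n + s) ≤ (cU s : ℝ) / 10 ^ 6 * S n := by
    intro n s hn hs
    have h1 := mul_le_mul_of_nonneg_right (cU_real s hs) (hSp (n + s)).le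
    have h2 : (0 : ℝ) ≤ (cU s : ℝ) / 10 ^ 6 := by positivity
    have h3 := mul_le_mul_of_nonneg_left (hpu n hn s) h2
    linarith
  have hvL : ∀ n s, 171 ≤ n → s < 30 → (vL s : ℝ) / 10 ^ 6 * S n ≤ 1.8935 * S (n + s) := by
    intro n s hn hs
    have h1 := mul_le_mul_of_nonneg_right (vL_real s hs) (hSp (n + s)).le
    have h2 : (0 : ℝ) ≤ (vL s : ℝ) / 10 ^ 6 := by positivity
    have h3 := mul_le_mul_of_nonneg_left (hpd n hn s) h2
    linarith
  have hI : ∀ n s, 171 ≤ n → s ≤ 45 → D n (s + 1) - D n s = S (n + s) + y (n + s) := by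
    intro n s hn hs
    rw [hL n (s + 1) hn (by omega), hL n s hn (by omega), Finset.sum_range_succ]
    ring
  -- the base
  have hbase : ∀ s, s ≤ 55 → ∀ n, N ≤ n → D n (s + 1) - D n s = S (n + s) + y (n + s) := by
    intro s
    induction s with
    | zero =>
      intro _ n hn
      have h1 := hD.D_search n 1 le_rfl (by rw [hD.cut0 n hn]; omega)
      rw [h1, hD.D_zero]
      simp only [hD.D_zero, add_zero, sub_zero]
    | succ s ih =>
      intro hs n hn
      have h1 := hD.D_search n (s + 2) (by omega) (by rw [hD.cut0 n hn]; omega)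
      have h2 := hD.D_search n (s + 1) (by omega) (by rw [hD.cut0 n hn]; omega)
      have h3 := ih (by omega) (n + 1) (by omega)
      rw [show s + 1 + 1 = s + 2 from rfl, h1, h2]
      rw [show s + 2 - 1 = s + 1 from rfl, show s + 1 - 1 = s from rfl]
      rw [show n + (s + 1) = n + 1 + s by ring]
      linarith
  have hk : ∀ n, 171 ≤ n → 46 ≤ 56 - κ n := by
    intro n hn
    have := hκ n hn
    omega
  have hstep : ∀ n, 171 ≤ n →
      (∀ s, 46 ≤ s → s ≤ 55 → D (n + 1) (s + 1) - D (n + 1) s ≤ 2.2325 * S (n + 1 + 47)) →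
      ∀ s, 46 ≤ s → s ≤ 55 → D n (s + 1) - D n s ≤ 2.2325 * S (n + 47) := by
    intro n hn hP s hs1 hs2
    have hk1 := hk n hn
    have ha : S (n + 1 + 47) ≤ S (n + 47) := hanti _ _ (by omega)
    rcases lt_trichotomy s (56 - κ n) with h | h | h
    · have h1 := hD.D_search n (s + 1) (by omega) (by omega)
      have h2 := hD.D_search n s (by omega) (by omega)
      rw [h1, h2]
      obtain ⟨t, rfl⟩ : ∃ t, s = t + 1 := ⟨s - 1, by omega⟩
      rw [show t + 1 + 1 - 1 = t + 1 from rfl, show t + 1 - 1 = t from rfl]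
      by_cases ht : t = 45
      · subst ht
        have h3 := hI (n + 1) 45 (by omega) le_rfl
        have h4 := hgu (n + 1 + 45) (by omega)
        rw [show n + 1 + 45 + 1 = n + 47 by ring] at h4
        linarith
      · have h3 := hP t (by omega) (by omega)
        linarith
    · have h1 := hD.D_wait n (s + 1) (by omega) (by omega)
      have h2 := hD.D_search n s (by omega) (by omega)
      rw [h1, h2]
      obtain ⟨t, rfl⟩ : ∃ t, s = t + 1 := ⟨s - 1, by omega⟩
      rw [show t + 1 - 1 = t from rfl]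
      have h3 : D (n + 1) (t + 1) - D (n + 1) t ≤ 2.2325 * S (n + 47) := by
        by_cases ht : t = 45
        · subst ht
          have h3 := hI (n + 1) 45 (by omega) le_rfl
          have h4 := hgu (n + 1 + 45) (by omega)
          rw [show n + 1 + 45 + 1 = n + 47 by ring] at h4
          linarith
        · have h3 := hP t (by omega) (by omega)
          linarith
      have h4 := hcU (n + 1) 46 (by omega) (by omega)
      rw [show n + 1 + 46 = n + 47 by ring] at h4
      have h5 : (cU 46 : ℝ) / 10 ^ 6 ≤ 0.87 := by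
        have : cU 46 ≤ 870000 := by decide +kernel
        have h6 : (cU 46 : ℝ) ≤ 870000 := by exact_mod_cast this
        rw [div_le_iff₀ (by norm_num)]
        linarith
      have h6 := mul_le_mul_of_nonneg_right h5 (hSp (n + 1)).le
      have h7 := (hR n hn).1
      have h8 := hP (t + 1) (by omega) (by omega)
      linarith
    · have h1 := hD.D_wait n (s + 1) (by omega) (by omega)
      have h2 := hD.D_wait n s (by omega) (by omega)
      rw [h1, h2]
      have h3 := hP s hs1 hs2
      linarith
  have hP : ∀ d n, 171 ≤ n → N ≤ n + d →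
      ∀ s, 46 ≤ s → s ≤ 55 → D n (s + 1) - D n s ≤ 2.2325 * S (n + 47) := by
    intro d
    induction d with
    | zero =>
      intro n hn hN s hs1 hs2
      rw [hbase s hs2 n (by omega)]
      have h1 := hgu (n + s) (by omega)
      have h2 := hanti (n + 47) (n + s + 1) (by omega)
      linarith
    | succ d ih =>
      intro n hn hN
      exact hstep n hn (ih (n + 1) (by omega) (by omega))
  have hP' : ∀ n, 171 ≤ n → ∀ s, 46 ≤ s → s ≤ 55 →
      D n (s + 1) - D n s ≤ 2.2325 * S (n + 47) := fun n hn => hP N n hn (by omega)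
  -- conclusion
  intro n hn r hr1 hr2
  set k := 56 - κ n with hkdef
  have hk1 : 46 ≤ k := hk n hn
  have hk2 : k ≤ 56 := Nat.sub_le _ _
  have hkpos : (0 : ℝ) < (k : ℝ) := by
    have : 0 < k := by omega
    exact_mod_cast this
  have hky : (k : ℝ) * y n = D (n + 1) k := by
    rw [hD.y_def n, ← hkdef]
    field_simp
  have hA := hSp (n + 1)
  constructor
  · intro hrk
    by_cases hr : r < 30
    · rw [hL (n + 1) r (by omega) (by omega)]
      have h1 : ∑ l ∈ Finset.range r, (vL (l + 1) : ℝ) / 10 ^ 6 * S (n + 1) ≤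
          ∑ l ∈ Finset.range r, (S (n + 1 + l) + y (n + 1 + l)) := by
        by_cases hr29 : r = 30
        · omega
        refine Finset.sum_le_sum fun l hl => ?_
        rw [Finset.mem_range] at hl
        have h2 := hgl (n + 1 + l) (by omega)
        have h3 := hvL (n + 1) (l + 1) (by omega) (by omega)
        rw [show n + 1 + (l + 1) = n + 1 + l + 1 by ring] at h3
        linarith
      refine le_trans ?_ h1
      rw [← Finset.sum_mul, ← Finset.sum_div]
      have h4 : (1200000 : ℝ) * r ≤ ∑ l ∈ Finset.range r, (vL (l + 1) : ℝ) := by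
        exact_mod_cast vSum r hr
      have h5 : 1.2 * (r : ℝ) ≤ (∑ l ∈ Finset.range r, (vL (l + 1) : ℝ)) / 10 ^ 6 := by
        rw [le_div_iff₀ (by norm_num)]
        linarith
      have h6 := mul_le_mul_of_nonneg_right h5 hA.le
      have h7 := mul_le_mul_of_nonneg_left (hR n hn).2 (Nat.cast_nonneg (α := ℝ) r)
      linarith
    · rcases Nat.eq_or_lt_of_le hrk with h | h
      · rw [h, hky]
      · have h1 := tel (fun r => D (n + 1) r) h.le
        have h2 : ∑ s ∈ Finset.Ico r k, (D (n + 1) (s + 1) - D (n + 1) s) ≤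
            ∑ s ∈ Finset.Ico r k, (cU (min (s + 1) 47) : ℝ) / 10 ^ 6 * S (n + 1) := by
          refine Finset.sum_le_sum fun s hs => ?_
          rw [Finset.mem_Ico] at hs
          by_cases hs2 : s ≤ 45
          · rw [hI (n + 1) s (by omega) hs2, show min (s + 1) 47 = s + 1 by omega]
            have h3 := hgu (n + 1 + s) (by omega)
            have h4 := hcU (n + 1) (s + 1) (by omega) (by omega)
            rw [show n + 1 + (s + 1) = n + 1 + s + 1 by ring] at h4
            linarith
          · rw [show min (s + 1) 47 = 47 by omega]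
            have h3 := hP' (n + 1) (by omega) s (by omega) (by omega)
            have h4 := hcU (n + 1) 47 (by omega) (by omega)
            linarith
        have h3 : (∑ s ∈ Finset.Ico r k, (cU (min (s + 1) 47) : ℝ)) ≤
            ((k : ℝ) - r) * ((lbk k : ℝ) * 10000) := by
          have h4 := cSum k (by omega) hk1 r h (by omega)
          have h5 : ((∑ s ∈ Finset.Ico r k, cU (min (s + 1) 47) : ℕ) : ℝ) ≤
              (((k - r) * (lbk k * 10000) : ℕ) : ℝ) := by exact_mod_cast h4
          rw [Nat.cast_sum, Nat.cast_mul, Nat.cast_sub h.le, Nat.cast_mul] at h5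
          exact h5
        have h6 : (lbk k : ℝ) / 100 * S (n + 1) ≤ y n := by
          have hRn := hRL n hn
          rw [← hkdef] at hRn
          obtain ⟨g1, g2, g3, g4⟩ := hRn
          unfold lbk
          split_ifs with i1 i2 i3
          · have := g4 i1
            norm_num at this ⊢
            linarith
          · have := g3 i2
            norm_num at this ⊢
            linarith
          · have := g2 i3
            norm_num at this ⊢
            linarith
          · norm_num at g1 ⊢
            linarith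
        rw [← Finset.sum_mul, ← Finset.sum_div] at h2
        have hkr : (0 : ℝ) ≤ (k : ℝ) - r := by
          have : (r : ℝ) ≤ k := by exact_mod_cast h.le
          linarith
        have h7 : (∑ s ∈ Finset.Ico r k, (cU (min (s + 1) 47) : ℝ)) / 10 ^ 6 * S (n + 1) ≤
            ((k : ℝ) - r) * y n := by
          calc (∑ s ∈ Finset.Ico r k, (cU (min (s + 1) 47) : ℝ)) / 10 ^ 6 * S (n + 1)
              ≤ (((k : ℝ) - r) * ((lbk k : ℝ) * 10000)) / 10 ^ 6 * S (n + 1) := by
                refine mul_le_mul_of_nonneg_right ?_ hA.le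
                exact div_le_div_of_nonneg_right h3 (by norm_num)
            _ = ((k : ℝ) - r) * ((lbk k : ℝ) / 100 * S (n + 1)) := by ring
            _ ≤ ((k : ℝ) - r) * y n := mul_le_mul_of_nonneg_left h6 hkr
        linarith
  · intro hrk
    have h1 := tel (fun r => D (n + 1) r) hrk.le
    have h2 : ∑ s ∈ Finset.Ico k r, (D (n + 1) (s + 1) - D (n + 1) s) ≤
        ∑ s ∈ Finset.Ico k r, y n := by
      refine Finset.sum_le_sum fun s hs => ?_
      rw [Finset.mem_Ico] at hs
      have h3 := hP' (n + 1) (by omega) s (by omega) (by omega)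
      have h4 := hcU (n + 1) 47 (by omega) (by omega)
      have h5 : (cU 47 : ℝ) / 10 ^ 6 ≤ 0.87 := by
        have : cU 47 ≤ 870000 := by decide +kernel
        have h6 : (cU 47 : ℝ) ≤ 870000 := by exact_mod_cast this
        rw [div_le_iff₀ (by norm_num)]
        linarith
      have h6 := mul_le_mul_of_nonneg_right h5 hA.le
      have h7 := (hR n hn).1
      linarith
    rw [Finset.sum_const, Nat.card_Ico, nsmul_eq_mul, Nat.cast_sub hrk.le] at h2
    linarith

end SA.H84
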